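import Pool.Agent.Helper55.RT.Spec5

/-!
# EIG
-/

set_option autoImplicit false
set_option linter.all false

namespace Pool.Agent.Helper42.Thin.EIG

open Pool.Agent.Helper55.RT

/-- Commuting operators have a common eigenvector. -/
theorem common (Ω : Type) [Field Ω] [IsAlgClosed Ω] (l : ℕ) :
    ∀ (W : Type) [AddCommGroup W] [Module Ω W] [FiniteDimensional Ω W] [Nontrivial W]
    (c : Fin l → (W →ₗ[Ω] W)), (∀ i j, Commute (c i) (c j)) →
    ∃ (w : W) (z : Fin l → Ω), w ≠ 0 ∧ ∀ i, c i w = z i • w := by
  induction l with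
  | zero =>
    intro W _ _ _ _ c _
    obtain ⟨w, hw⟩ := exists_ne (0 : W)
    exact ⟨w, fun i => i.elim0, hw, fun i => i.elim0⟩
  | succ l ih =>
    intro W _ _ _ _ c hc
    obtain ⟨μ, hμ⟩ := Module.End.exists_eigenvalue (c 0)
    let E : Submodule Ω W := Module.End.eigenspace (c 0) μ
    have hE : E ≠ ⊥ := hμ
    haveI : Nontrivial E := (Submodule.nontrivial_iff_ne_bot).2 hE
    have hm : ∀ i : Fin l, ∀ x ∈ E, c i.succ x ∈ E := by
      intro i x hx
      have hx' : c 0 x = μ • x := Module.End.mem_eigenspace_iff.1 hx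
      apply Module.End.mem_eigenspace_iff.2
      have h := LinearMap.congr_fun (hc 0 i.succ) x
      simp only [Module.End.mul_apply] at h
      rw [h, hx', map_smul]
    obtain ⟨w, z, hw, hz⟩ := ih E (fun i => (c i.succ).restrict (hm i)) (by
      intro i j
      apply LinearMap.ext
      intro x
      apply Subtype.ext
      have h := LinearMap.congr_fun (hc i.succ j.succ) (x : W)
      simpa [Module.End.mul_apply, LinearMap.restrict_apply] using h)
    refine ⟨(w : W), Fin.cons μ z, fun h => hw (Subtype.ext h), ?_⟩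
    intro i
    refine Fin.cases ?_ (fun i => ?_) i
    · have := Module.End.mem_eigenspace_iff.1 w.2
      simpa using this
    · have := congrArg Subtype.val (hz i)
      simpa [LinearMap.restrict_apply] using this

theorem pow_apply' {Ω : Type} [Field Ω] {W : Type} [AddCommGroup W] [Module Ω W]
    (c : W →ₗ[Ω] W) (w : W) (z : Ω) (h : c w = z • w) (n : ℕ) : (c ^ n) w = z ^ n • w := by
  induction n with
  | zero => simp
  | succ n ih =>
    rw [pow_succ, Module.End.mul_apply, h, map_smul, ih, smul_smul, pow_succ, mul_comm]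

theorem prod_apply {Ω : Type} [Field Ω] {W : Type} [AddCommGroup W] [Module Ω W] (w : W) (l : ℕ) :
    ∀ (c : Fin l → (W →ₗ[Ω] W)) (z : Fin l → Ω), (∀ i, c i w = z i • w) →
    (List.ofFn c).prod w = (∏ i, z i) • w := by
  induction l with
  | zero => intro c z h; simp
  | succ l ih =>
    intro c z h
    rw [List.ofFn_succ, List.prod_cons, Module.End.mul_apply, ih (fun i => c i.succ)
      (fun i => z i.succ) (fun i => h i.succ), map_smul, h 0, smul_smul, Fin.prod_univ_succ,
      mul_comm]

theorem main : Q_EIG := by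
  intro ℓ hℓ _ Ω _ _ _ W _ _ _ _ l c hc h1
  obtain ⟨w, z, hw, hz⟩ := common Ω l W c hc
  have hpow : ∀ i, z i ^ ℓ = 1 := by
    intro i
    have h := pow_apply' (c i) w (z i) (hz i) ℓ
    rw [h1 i] at h
    have h' : (1 - z i ^ ℓ) • w = 0 := by
      rw [sub_smul, one_smul, ← h]
      simp
    rcases smul_eq_zero.1 h' with h'' | h''
    · exact (sub_eq_zero.1 h'').symm
    · exact absurd h'' hw
  by_cases hall : ∀ i, z i = 1
  · refine ⟨fun _ => 1, w, hw, ?_, ?_⟩
    · intro i j hi
      exact absurd (Nat.dvd_one.1 hi) hℓ.out.one_lt.ne'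
    · rw [prod_apply w l (fun i => c i ^ 1) (fun _ => 1)]
      · simp
      · intro i
        rw [pow_one, hz i, hall i]
  · push_neg at hall
    obtain ⟨i₀, hi₀⟩ := hall
    have hprim : IsPrimitiveRoot (z i₀) ℓ := by
      have h := orderOf_eq_prime (hpow i₀) hi₀
      rw [← h]
      exact IsPrimitiveRoot.orderOf (z i₀)
    set P : Ω := ∏ i ∈ Finset.univ.erase i₀, z i with hP
    have hPpow : P ^ ℓ = 1 := by
      rw [hP, ← Finset.prod_pow]
      exact Finset.prod_eq_one fun i _ => hpow i
    have hP0 : P ≠ 0 := by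
      intro h
      rw [h, zero_pow hℓ.out.ne_zero] at hPpow
      exact zero_ne_one hPpow
    obtain ⟨a, _, ha⟩ := hprim.eq_pow_of_pow_eq_one (ξ := P⁻¹) (by rw [inv_pow, hPpow, inv_one])
    refine ⟨fun i => if i = i₀ then a else 1, w, hw, ?_, ?_⟩
    · intro i j hi hj
      have hne : ¬ ℓ ∣ 1 := fun h => hℓ.out.one_lt.ne' (Nat.dvd_one.1 h)
      have h1 : i = i₀ := by
        by_contra h
        simp only [h, if_false] at hi
        exact hne hi
      have h2 : j = i₀ := by
        by_contra h
        simp only [h, if_false] at hj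
        exact hne hj
      rw [h1, h2]
    · rw [prod_apply w l (fun i => c i ^ (if i = i₀ then a else 1))
        (fun i => z i ^ (if i = i₀ then a else 1)) (fun i => pow_apply' _ _ _ (hz i) _)]
      rw [← Finset.mul_prod_erase Finset.univ _ (Finset.mem_univ i₀)]
      have : ∏ x ∈ Finset.univ.erase i₀, z x ^ (if x = i₀ then a else 1) = P := by
        rw [hP]
        apply Finset.prod_congr rfl
        intro i hi
        rw [if_neg (Finset.ne_of_mem_erase hi), pow_one]
      rw [this, if_pos rfl, ha, inv_mul_cancel₀ hP0, one_smul]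

end Pool.Agent.Helper42.Thin.EIG
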