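import Pool.Agent.Helper55.RT.Spec3
import Pool.Agent.Helper12.Thin.GRP

/-! Part GFU: the Galois group of `D` is the full symmetric group, so `n!` divides the degree of every
finite extension which contains the roots of `D`. -/

set_option autoImplicit false

open Polynomial
open scoped Classical

namespace Pool.Agent.Helper42.Thin.GFU

open Pool.Agent.Helper55.RT Pool.Agent.Helper55.RG Pool.Agent.Helper12.Thin.GRP

theorem main : Q_GFU := by
  intro k k' _ _ _ _ _ κ₀ g hg hg0 n D θ hn hD hθ hW κ hfin hκ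
  have hinj := theta_inj hD hθ
  haveI : IsAlgClosed k' := algClosed k k'
  haveI : Fact ((D.map (algebraMap k k')).Splits) := ⟨IsAlgClosed.splits _⟩
  have hD0 : D ≠ 0 := hD.ne_zero
  have hrt : D.rootSet k' = Set.range θ := by
    ext x
    rw [mem_rootSet_of_ne hD0, ← eval_map_algebraMap, hθ, eval_prod, Finset.prod_eq_zero_iff]
    constructor
    · rintro ⟨i, -, hi⟩
      rw [eval_sub, eval_X, eval_C] at hi
      exact ⟨i, (sub_eq_zero.1 hi).symm⟩
    · rintro ⟨i, rfl⟩
      exact ⟨i, Finset.mem_univ i, by simp⟩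
  let e : Fin n ≃ D.rootSet k' := (Equiv.ofInjective θ hinj).trans (Equiv.setCongr hrt.symm)
  have he : ∀ i, ((e i : D.rootSet k') : k') = θ i := fun i => rfl
  have hsur : Function.Surjective (Polynomial.Gal.galActionHom D k') := by
    intro π
    let ρ : Equiv.Perm (Fin n) := (e.trans π).trans e.symm
    have hρ : ∀ i, θ (ρ i) = (π (e i) : D.rootSet k') := by
      intro i
      rw [← he (ρ i)]
      simp [ρ]
    have h0 : (⟨0, by omega⟩ : Fin n) ≠ ⟨1, by omega⟩ := by
      intro h
      simp at h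
    obtain ⟨b, hb⟩ := exists_root κ₀ g hg hg0 (θ ⟨0, by omega⟩)
    obtain ⟨c, hc⟩ := exists_root κ₀ g hg hg0 (θ ⟨1, by omega⟩)
    obtain ⟨b', hb'⟩ := exists_root κ₀ g hg hg0 (θ (ρ ⟨0, by omega⟩))
    obtain ⟨c', hc'⟩ := exists_root κ₀ g hg hg0 (θ (ρ ⟨1, by omega⟩))
    have hθ' : D.map (algebraMap k k') = ∏ i, (X - C (θ (ρ i))) := by
      rw [hθ]
      exact (Equiv.prod_comp ρ (fun i => X - C (θ i))).symm
    obtain ⟨s, hs, -, -⟩ := hW θ (fun i => θ (ρ i)) hθ hθ' _ _ h0 b c b' c' hb hc hb' hc'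
    refine ⟨Polynomial.Gal.restrict D k' (s.restrictScalars k), ?_⟩
    ext x
    rw [Polynomial.Gal.galActionHom_restrict]
    obtain ⟨i, rfl⟩ := e.surjective x
    rw [← hρ, ← hs, he]
    rfl
  have h1 : Nat.card (Equiv.Perm (D.rootSet k')) ∣ Nat.card D.Gal :=
    Subgroup.card_dvd_of_surjective _ hsur
  rw [Nat.card_perm, ← Nat.card_congr e, Nat.card_fin,
    Polynomial.Gal.card_of_separable hD.separable] at h1
  refine h1.trans ?_
  have hD' : D.map (algebraMap k κ) = ∏ i, (X - C (⟨θ i, hκ i⟩ : κ)) := by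
    apply Polynomial.map_injective (algebraMap κ k') (algebraMap κ k').injective
    rw [Polynomial.map_map, ← IsScalarTower.algebraMap_eq, hθ, Polynomial.map_prod]
    refine Finset.prod_congr rfl fun i _ => ?_
    rw [Polynomial.map_sub, map_X, map_C]
    rfl
  have hsp : (D.map (algebraMap k κ)).Splits := by
    rw [hD']
    exact Splits.prod fun i _ => Splits.X_sub_C _
  let f : D.SplittingField →ₐ[k] κ := SplittingField.lift D hsp
  have h2 : Module.finrank k D.SplittingField = Module.finrank k f.fieldRange :=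
    (LinearEquiv.finrank_eq (AlgEquiv.ofInjectiveField f).toLinearEquiv)
  rw [h2, ← Module.finrank_mul_finrank k f.fieldRange κ]
  exact Dvd.intro _ rfl

end Pool.Agent.Helper42.Thin.GFU
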