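import Pool.Agent.Helper55.RT.Spec6

/-!
# ORA
-/

set_option autoImplicit false
set_option linter.all false

namespace Pool.Agent.Helper42.Thin.ORA

open Pool.Agent.Helper55.RT

theorem core (p : ℕ) [Fact p.Prime] (G : Type) [Group G] (H : Type) [AddCommGroup H]
    [Module ℚ_[p] H] [Module ℤ_[p] H] [IsScalarTower ℤ_[p] ℚ_[p] H]
    (r : Representation ℚ_[p] G H) (v : H) (hv : v ≠ 0)
    (N : Subgroup G) (hN : N.Normal) (hf : N.FiniteIndex) (hfix : ∀ g ∈ N, r g v = v) :
    ∃ (m : ℕ) (b : Fin m → H) (δ : G →* GL (Fin m) ℤ_[p]), 0 < m ∧ LinearIndependent ℚ_[p] b ∧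
      (∀ g ∈ N, δ g = 1) ∧
      (∀ g j, r g (b j) = ∑ i, algebraMap ℤ_[p] ℚ_[p] ((δ g).1 i j) • b i) := by
  classical
  let O : Set H := Set.range fun g : G => r g v
  have hmul : ∀ (g h : G) (x : H), r (g * h) x = r g (r h x) := fun g h x => by
    rw [map_mul, Module.End.mul_apply]
  have hO : O.Finite := by
    haveI := hf
    haveI : Finite (G ⧸ N) := inferInstance
    have : O ⊆ Set.range fun q : G ⧸ N => r q.out v := by
      rintro _ ⟨g, rfl⟩
      refine ⟨(g : G ⧸ N), ?_⟩
      have h1 : ((g : G ⧸ N).out)⁻¹ * g ∈ N := by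
        rw [← QuotientGroup.eq, QuotientGroup.out_eq']
      have h2 : g = (g : G ⧸ N).out * (((g : G ⧸ N).out)⁻¹ * g) := by group
      show r (g : G ⧸ N).out v = r g v
      conv_rhs => rw [h2, hmul, hfix _ h1]
    exact (Set.finite_range _).subset this
  let Λ : Submodule ℤ_[p] H := Submodule.span ℤ_[p] O
  have hΛ : Λ.FG := ⟨hO.toFinset, by rw [Set.Finite.coe_toFinset]⟩
  haveI : Module.Finite ℤ_[p] Λ := Module.Finite.iff_fg.2 hΛ
  haveI : Module.IsTorsionFree ℤ_[p] H := by
    exact Module.IsTorsionFree.trans_faithfulSMul ℤ_[p] ℚ_[p] H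
  haveI : Module.Free ℤ_[p] Λ := Module.free_of_finite_type_torsion_free'
  let R : G → (H →ₗ[ℤ_[p]] H) := fun g => (r g).restrictScalars ℤ_[p]
  have hmaps : ∀ g, ∀ x ∈ Λ, R g x ∈ Λ := by
    intro g x hx
    have : Λ ≤ Λ.comap (R g) := by
      refine Submodule.span_le.2 ?_
      rintro _ ⟨h, rfl⟩
      refine Submodule.subset_span ⟨g * h, ?_⟩
      exact hmul g h v
    exact this hx
  let ρ : G →* Module.End ℤ_[p] Λ :=
    { toFun := fun g => (R g).restrict (hmaps g)
      map_one' := by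
        apply LinearMap.ext
        intro x
        apply Subtype.ext
        show r 1 (x : H) = x
        rw [map_one]
        rfl
      map_mul' := by
        intro g h
        apply LinearMap.ext
        intro x
        apply Subtype.ext
        exact hmul g h x }
  let B := Module.finBasis ℤ_[p] Λ
  let M : G →* Matrix (Fin (Module.finrank ℤ_[p] Λ)) (Fin (Module.finrank ℤ_[p] Λ)) ℤ_[p] :=
    ((LinearMap.toMatrixAlgEquiv B : Module.End ℤ_[p] Λ ≃ₐ[ℤ_[p]] _) :
      Module.End ℤ_[p] Λ →* _).comp ρ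
  have hM : ∀ g i j, M g i j = B.repr (ρ g (B j)) i := fun g i j =>
    LinearMap.toMatrixAlgEquiv_apply B (ρ g) i j
  refine ⟨Module.finrank ℤ_[p] Λ, fun i => (B i : H), M.toHomUnits, ?_, ?_, ?_, ?_⟩
  · have hvΛ : v ∈ Λ := Submodule.subset_span ⟨1, by
      show r 1 v = v
      rw [map_one]
      rfl⟩
    haveI : Nontrivial Λ := ⟨⟨v, hvΛ⟩, 0, fun h => hv (congrArg Subtype.val h)⟩
    exact Module.finrank_pos
  · refine (LinearIndependent.iff_fractionRing ℤ_[p] ℚ_[p]).1 ?_
    exact B.linearIndependent.map' Λ.subtype (Submodule.ker_subtype Λ)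
  · intro g hg
    have hid : ∀ x ∈ Λ, R g x = x := by
      intro x hx
      have : Λ ≤ LinearMap.eqLocus (R g) LinearMap.id := by
        refine Submodule.span_le.2 ?_
        rintro _ ⟨h, rfl⟩
        show r g (r h v) = r h v
        have h1 : h⁻¹ * g * h ∈ N := by
          have := hN.conj_mem g hg h⁻¹
          simpa using this
        rw [← hmul, show g * h = h * (h⁻¹ * g * h) by group, hmul, hfix _ h1]
      exact this hx
    have hρ : ρ g = 1 := by
      apply LinearMap.ext
      intro x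
      apply Subtype.ext
      exact hid x x.2
    apply Units.ext
    show M g = 1
    show (LinearMap.toMatrixAlgEquiv B) (ρ g) = 1
    rw [hρ, map_one]
  · intro g j
    have h1 : (ρ g (B j)) = ∑ i, (M g i j) • B i := by
      conv_lhs => rw [← B.sum_repr (ρ g (B j))]
      exact Finset.sum_congr rfl fun i _ => by rw [hM]
    have h2 := congrArg Subtype.val h1
    show r g (B j : H) = ∑ i, algebraMap ℤ_[p] ℚ_[p] (M g i j) • (B i : H)
    have h3 : ((ρ g (B j) : Λ) : H) = r g (B j : H) := rfl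
    rw [← h3, h1]
    rw [Submodule.coe_sum]
    refine Finset.sum_congr rfl fun i _ => ?_
    rw [Submodule.coe_smul, algebraMap_smul]

theorem main : Q_ORA := by
  intro p _ G _ H _ _ r v hv N hN hf hfix
  letI : Module ℤ_[p] H := Module.compHom H (algebraMap ℤ_[p] ℚ_[p])
  haveI : IsScalarTower ℤ_[p] ℚ_[p] H := ⟨fun x y z => by
    rw [Algebra.smul_def, mul_smul]
    rfl⟩
  exact core p G H r v hv N hN hf hfix

end Pool.Agent.Helper42.Thin.ORA
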